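import Pool.Agent.W295.NL.Stm

set_option autoImplicit false

namespace Pool.Agent.W35.NL.TB

open Pool.Agent.W295.NL

theorem main : S_TB := by
  rintro Q L n hn ⟨X, κ, hC, hinj⟩
  have key : ∀ a, Function.Injective (fun i : Fin n => X a (2 * (i : ℕ))) := by
    intro a i j h
    have h1 : 2 * (i : ℕ) ≡ 2 * (j : ℕ) [MOD 2] := by
      show 2 * (i : ℕ) % 2 = 2 * (j : ℕ) % 2
      omega
    have h2 : 2 * (i : ℕ) % (2 * n) = 2 * (j : ℕ) % (2 * n) := hinj a _ _ h h1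
    have hi := i.2
    have hj := j.2
    rw [Nat.mod_eq_of_lt (by omega), Nat.mod_eq_of_lt (by omega)] at h2
    exact Fin.ext (by omega)
  refine ⟨fun i => X 0 (2 * (i : ℕ)), fun i => X 1 (2 * (i : ℕ)), key 0, key 1, ?_⟩
  intro i j h
  apply key 2
  show X 2 (2 * (i : ℕ)) = X 2 (2 * (j : ℕ))
  rw [hC.sym, hC.sym]
  exact h

end Pool.Agent.W35.NL.TB
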